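import Mathlib
import Pool.Agent.Lib.H70.BraidDefs
import Pool.Agent.Lib.H70.BraidLowerFinal

/-!
# The growth rates of the braid groups: `ω_n ≥ 4 cos² (π / (n + 1))` and `ω_∞ ≥ 4`

The words in the letters `σ_1, σ_2⁻¹, σ_3, σ_4⁻¹, …` whose indices never drop by more than one
spell pairwise different elements of `B_n`: via the action `x_i ↦ x_i + x_{i-1} + x_{i+1}` of the
`i`-th letter on integral vectors the first letter of such a word can be read off from the image of
the vector `(1, …, 1)`. The number of these words grows like `(4 cos² (π / (n + 1)))^k`.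
-/

namespace Pool.Agent.Results.MP_578bf4_al.LowerBound

open Filter Topology Pool.Agent.H70.Braid

/-- For every `n ≥ 3` the growth rate `ω_n^B` exists and is at least `4 cos² (π / (n + 1))`; and
the limit `ω_∞^B` of the growth rates is at least `4`. -/
theorem result :
    (∀ n : ℕ, 3 ≤ n → ∃ ω : ℝ, IsGrowthRate n ω ∧ 4 * Real.cos (Real.pi / (n + 1)) ^ 2 ≤ ω) ∧
    (∀ (ω : ℕ → ℝ) (L : ℝ), (∀ n, 2 ≤ n → IsGrowthRate n (ω n)) →
      Tendsto ω atTop (𝓝 L) → 4 ≤ L) := by
  refine ⟨fun n hn => ?_, fun ω L hω hL => ?_⟩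
  · obtain ⟨ω, hω⟩ := exists_growthRate n
    exact ⟨ω, hω, growth_ge hn hω⟩
  · have h1 : Tendsto (fun n : ℕ => 4 * Real.cos (Real.pi / (n + 1)) ^ 2) atTop
        (𝓝 (4 * Real.cos 0 ^ 2)) := by
      have h2 : Tendsto (fun n : ℕ => Real.pi / ((n : ℝ) + 1)) atTop (𝓝 0) := by
        have h3 := tendsto_one_div_add_atTop_nhds_zero_nat (𝕜 := ℝ)
        have h4 := h3.const_mul Real.pi
        rw [mul_zero] at h4
        refine h4.congr (fun n => ?_)
        rw [mul_one_div]
      exact ((((Real.continuous_cos.tendsto 0).comp h2).pow 2).const_mul 4)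
    rw [Real.cos_zero, one_pow, mul_one] at h1
    refine le_of_tendsto_of_tendsto h1 hL ?_
    filter_upwards [eventually_ge_atTop 3] with n hn
    exact growth_ge hn (hω n (by omega))

end Pool.Agent.Results.MP_578bf4_al.LowerBound
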