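import Mathlib
import Pool.Agent.Lib.H70.BraidDefs
import Pool.Agent.Lib.H70.BraidUpperFinal

/-!
# The growth rate of the braid groups is at most 5.7604

For every `n`, the exponential growth rate of `B_n` with respect to the Artin generators exists and
is at most `5.7604`; hence so is the limit `ω_∞^B` (the previously known bound was `7`).

The proof shows that the words which are geodesic and, among the geodesic words of an element,
lexicographically least in the indices, avoid the patterns
* `σ_j^ε (σ_{j-1}^δ)^k x σ_j^{ε'}` with `x` a word in the `σ_i`, `i ≤ j - 2`, unless `ε' = ε` and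
  not (`k = 1` and `δ = ε`);
* `σ_j^{±1} σ_i^{±1}` with `i ≤ j - 2`, and `σ_j^ε σ_j^{-ε}`;
and counts the words avoiding them with a weight function on the stack of pending constraints.
-/

namespace Pool.Agent.Results.MP_578bf4_al.UpperBound

open Filter Topology Pool.Agent.H70.Braid

/-- For every `n ≥ 2` the growth rate `ω_n^B` exists and is at most `5.7604`; and the limit
`ω_∞^B` of the growth rates is at most `5.7604`. -/
theorem result :
    (∀ n : ℕ, 2 ≤ n → ∃ ω : ℝ, IsGrowthRate n ω ∧ ω ≤ 5.7604) ∧
    (∀ (ω : ℕ → ℝ) (L : ℝ), (∀ n, 2 ≤ n → IsGrowthRate n (ω n)) →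
      Tendsto ω atTop (𝓝 L) → L ≤ 5.7604) := by
  refine ⟨fun n _ => ?_, fun ω L hω hL => ?_⟩
  · obtain ⟨ω, hω⟩ := exists_growthRate n
    exact ⟨ω, hω, growth_le hω⟩
  · refine le_of_tendsto hL ?_
    filter_upwards [eventually_ge_atTop 2] with n hn
    exact growth_le (hω n hn)

end Pool.Agent.Results.MP_578bf4_al.UpperBound
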